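import Pool.Agent.H11.WCT.Theta
import Pool.Agent.H11.WCT.Lower
import Pool.Agent.H11.WCT.Final

/-!
The order of magnitude of the maximum modulus of the independence roots of well-covered trees.
-/

namespace Pool.Agent.Results.MP_0460eb_co.OrderOfMagnitude

open Real WCT

/-- Let `R > 0` be the unique positive solution of `R (1 + R) ^ 75 = 1` and put
`γ = 1 - 76 log (1 + R) / log 75 = 0.2608...`.  Then the maximum modulus `M n` of an independence
root of a well-covered tree with `n` vertices is of exact order `n ^ γ` for even `n`. -/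
theorem result : ∃ R γ : ℝ, 0 < R ∧ R * (1 + R) ^ 75 = 1 ∧
    (∀ R' : ℝ, 0 < R' → R' * (1 + R') ^ 75 = 1 → R' = R) ∧
    γ = 1 - 76 * log (1 + R) / log 75 ∧ 0.26085 < γ ∧ γ < 0.26086 ∧
    ∃ c C : ℝ, 0 < c ∧ 0 < C ∧ ∀ m : ℕ, 1 ≤ m →
      c * ((2 * m : ℕ) : ℝ) ^ γ ≤ M (2 * m) ∧ M (2 * m) ≤ C * ((2 * m : ℕ) : ℝ) ^ γ := by
  obtain ⟨C, hC, hC1⟩ := M_upper gam_pos.le upper_gam
  obtain ⟨c, hc, hc1⟩ := M_lower gam_pos lower_gam
  refine ⟨Rr, gam, Rr_pos, Rr_eq, fun R' h1 h2 => Rr_unique h1 h2, rfl, gam_lo, gam_hi,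
    c, C, hc, hC, fun m hm => ⟨hc1 m hm, hC1 m hm⟩⟩

end Pool.Agent.Results.MP_0460eb_co.OrderOfMagnitude
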